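import Pool.Agent.H414R5.W11

/-!
# MP_4229e6_an: the one-supremum bounds fail at `α = 0` (`n = 1`, `p = 2`)

There is a Calderon-Zygmund operator on `ℝ` for which, with `p = 2` and `α = 0`
(so `θ = η = 1/2`), even the weak type norm is not bounded by a constant times
`[w]_{(A_2)^{1/2} (A_∞^exp)^{1/2}} + [σ]_{(A_2)^{1/2} (A_∞^exp)^{1/2}}`, `σ = w⁻¹`.
-/

set_option autoImplicit false

open MeasureTheory Set
open scoped ENNReal NNReal

namespace Pool.Agent.Results.MP_4229e6_an.EndpointFails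

open Pool.Agent.H414R5

/-- mean of `v` over the interval `[a, b]` -/
noncomputable def avg (v : ℝ → ℝ) (a b : ℝ) : ℝ := (∫ x in a..b, v x) / (b - a)

/-- `A_2(w, [a, b])` -/
noncomputable def A2 (w : ℝ → ℝ) (a b : ℝ) : ℝ := avg w a b * avg (fun x => (w x)⁻¹) a b

/-- `A_∞^exp(w, [a, b])` -/
noncomputable def Aexp (w : ℝ → ℝ) (a b : ℝ) : ℝ :=
  avg w a b * Real.exp (avg (fun x => Real.log (w x)⁻¹) a b)

/-- `[w]_{(A_2)^{1/2} (A_∞^exp)^{1/2}}` -/
noncomputable def oneSup (w : ℝ → ℝ) : ℝ≥0∞ :=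
  ⨆ (a : ℝ) (b : ℝ) (_ : a < b), ENNReal.ofReal (A2 w a b ^ (1 / 2 : ℝ) * Aexp w a b ^ (1 / 2 : ℝ))

/-- `w` is a weight in `A_2` -/
def MemA2 (w : ℝ → ℝ) : Prop :=
  Measurable w ∧ (∀ x, 0 < w x) ∧ (∀ a b, IntervalIntegrable w volume a b) ∧
    (∀ a b, IntervalIntegrable (fun x => (w x)⁻¹) volume a b) ∧
    (∀ a b, IntervalIntegrable (fun x => Real.log (w x)) volume a b) ∧
    ∃ C : ℝ, ∀ a b, a < b → A2 w a b ≤ C

/-- the measure `w dx` -/
noncomputable def wm (w : ℝ → ℝ) : Measure ℝ :=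
  volume.withDensity (fun x => ENNReal.ofReal (w x))

/-- `T` is a Calderon-Zygmund operator on `ℝ` with kernel `K` (here `K (x, ·)` is integrable
against every `L²` function, so `T f (x) = ∫ K (x, y) f (y) dy` for every `x` and every `f ∈ L²`) -/
structure IsCZO (T : (ℝ → ℝ) → ℝ → ℝ) (K : ℝ → ℝ → ℝ) : Prop where
  meas : Measurable (Function.uncurry K)
  size : ∃ C : ℝ, ∀ x y, x ≠ y → |K x y| ≤ C / |x - y|
  smooth : ∃ C : ℝ, ∀ x x' y, x ≠ y → 2 * |x - x'| ≤ |x - y| →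
    |K x y - K x' y| + |K y x - K y x'| ≤ C * |x - x'| / |x - y| ^ 2
  kernel : ∀ f : ℝ → ℝ, MemLp f 2 volume → ∀ x,
    Integrable (fun y => K x y * f y) volume ∧ T f x = ∫ y, K x y * f y
  bounded : ∃ C : ℝ≥0, ∀ f : ℝ → ℝ, MemLp f 2 volume →
    MemLp (T f) 2 volume ∧ eLpNorm (T f) 2 volume ≤ C * eLpNorm f 2 volume

/-- from the working form to the constants of the problem -/
theorem bounds {K : ℝ} {w : ℝ → ℝ} {a b : ℝ} (hab : a < b) (w0 : ∀ x, 0 < w x)
    (h : PP K w a b) :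
    0 ≤ A2 w a b ∧ 0 ≤ Aexp w a b ∧ 0 ≤ Aexp (fun x => (w x)⁻¹) a b ∧
    A2 w a b * Aexp w a b ≤ K ∧ A2 w a b * Aexp (fun x => (w x)⁻¹) a b ≤ K ∧
    A2 (fun x => (w x)⁻¹) a b = A2 w a b ∧ A2 w a b ≤ 1 + K ^ 2 := by
  have hL : 0 < b - a := sub_pos.2 hab
  set X := avg w a b with hX
  set Y := avg (fun x => (w x)⁻¹) a b with hY
  set g := avg (fun x => Real.log (w x)) a b with hg
  have X0 : 0 ≤ X := div_nonneg (intervalIntegral.integral_nonneg hab.le (fun x _ => (w0 x).le)) hL.le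
  have Y0 : 0 ≤ Y := div_nonneg (intervalIntegral.integral_nonneg hab.le
    (fun x _ => inv_nonneg.2 (w0 x).le)) hL.le
  have eX : ∫ x in a..b, w x = (b - a) * X := by rw [hX, avg]; field_simp
  have eY : ∫ x in a..b, (w x)⁻¹ = (b - a) * Y := by rw [hY, avg]; field_simp
  have L3 : 0 < (b - a) ^ 3 := by positivity
  have p1 : X ^ 2 * Y ≤ K * Real.exp g := by
    have := h.1
    rw [eX, eY] at this
    have e : ((b - a) * X) ^ 2 * ((b - a) * Y) = (b - a) ^ 3 * (X ^ 2 * Y) := by ring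
    rw [e] at this
    have e2 : K * (b - a) ^ 3 * Real.exp ((∫ x in a..b, Real.log (w x)) / (b - a))
        = (b - a) ^ 3 * (K * Real.exp g) := by rw [hg, avg]; ring
    rw [e2] at this
    exact le_of_mul_le_mul_left this L3
  have p2 : X * Y ^ 2 * Real.exp g ≤ K := by
    have := h.2
    rw [eX, eY] at this
    have e : ((b - a) * X) * ((b - a) * Y) ^ 2 * Real.exp ((∫ x in a..b, Real.log (w x)) / (b - a))
        = (b - a) ^ 3 * (X * Y ^ 2 * Real.exp g) := by rw [hg, avg]; ring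
    rw [e, mul_comm K] at this
    exact le_of_mul_le_mul_left this L3
  have hlog : avg (fun x => Real.log (w x)⁻¹) a b = -g := by
    rw [hg, avg, avg]
    simp only [Real.log_inv]
    rw [intervalIntegral.integral_neg]; ring
  have eA2 : A2 w a b = X * Y := rfl
  have eAe : Aexp w a b = X * Real.exp (-g) := by unfold Aexp; rw [hlog]
  have eAi : Aexp (fun x => (w x)⁻¹) a b = Y * Real.exp g := by
    unfold Aexp; simp only [inv_inv]; rfl
  have eAA : A2 (fun x => (w x)⁻¹) a b = A2 w a b := by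
    unfold A2; simp only [inv_inv]; ring
  have hK : 0 ≤ K := le_trans (by positivity) p2
  refine ⟨by rw [eA2]; positivity, by rw [eAe]; positivity, by rw [eAi]; positivity, ?_, ?_, eAA, ?_⟩
  · rw [eA2, eAe, Real.exp_neg]
    calc X * Y * (X * (Real.exp g)⁻¹) = (X ^ 2 * Y) / Real.exp g := by ring
      _ ≤ K := by rw [div_le_iff₀ (Real.exp_pos _)]; exact p1
  · rw [eA2, eAi]
    calc X * Y * (Y * Real.exp g) = X * Y ^ 2 * Real.exp g := by ring
      _ ≤ K := p2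
  · rw [eA2]
    by_cases hXY : X * Y ≤ 1
    · nlinarith [sq_nonneg K]
    · push Not at hXY
      have q : (X * Y) ^ 3 ≤ K ^ 2 := by
        have h1 : (X ^ 2 * Y) * (X * Y ^ 2 * Real.exp g) ≤ (K * Real.exp g) * K := by
          apply mul_le_mul p1 p2 (by positivity) (by positivity)
        have h2 : (X ^ 2 * Y) * (X * Y ^ 2 * Real.exp g) = (X * Y) ^ 3 * Real.exp g := by ring
        have h3 : (K * Real.exp g) * K = K ^ 2 * Real.exp g := by ring
        rw [h2, h3] at h1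
        exact le_of_mul_le_mul_right h1 (Real.exp_pos _)
      have : X * Y ≤ (X * Y) ^ 3 := by
        have := pow_le_pow_right₀ hXY.le (show 1 ≤ 3 by norm_num)
        simpa using this
      linarith

theorem oneSup_le {K : ℝ} {w : ℝ → ℝ} (w0 : ∀ x, 0 < w x)
    (h : ∀ a b, a < b → PP K w a b) :
    oneSup w ≤ ENNReal.ofReal (K ^ (1 / 2 : ℝ)) ∧
      oneSup (fun x => (w x)⁻¹) ≤ ENNReal.ofReal (K ^ (1 / 2 : ℝ)) := by
  constructor
  · refine iSup_le fun a => iSup_le fun b => iSup_le fun hab => ?_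
    obtain ⟨h1, h2, h3, h4, h5, h6, h7⟩ := bounds hab w0 (h a b hab)
    apply ENNReal.ofReal_le_ofReal
    rw [← Real.mul_rpow h1 h2]
    exact Real.rpow_le_rpow (by positivity) h4 (by norm_num)
  · refine iSup_le fun a => iSup_le fun b => iSup_le fun hab => ?_
    obtain ⟨h1, h2, h3, h4, h5, h6, h7⟩ := bounds hab w0 (h a b hab)
    apply ENNReal.ofReal_le_ofReal
    rw [h6, ← Real.mul_rpow h1 h3]
    exact Real.rpow_le_rpow (by positivity) h5 (by norm_num)

/-- **Both one-supremum mixed bounds fail at `α = 0`** (dimension one, `p = 2`): for a suitable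
Calderon-Zygmund operator `T` on `ℝ` and every constant `C` there are `w ∈ A_2` and `f` such that
`C ([w]_{(A_2)^{1/2}(A_∞^exp)^{1/2}} + [w⁻¹]_{(A_2)^{1/2}(A_∞^exp)^{1/2}}) ‖f‖_{L²(w)}` is finite and
is less than `t w({|T f| > t})^{1/2}` for some `t > 0`, hence less than `‖T f‖_{L²(w)}`. -/
theorem result : ∃ (T : (ℝ → ℝ) → ℝ → ℝ) (K : ℝ → ℝ → ℝ), IsCZO T K ∧
    ∀ C : ℝ≥0, ∃ w : ℝ → ℝ, MemA2 w ∧ oneSup w ≠ ⊤ ∧ oneSup (fun x => (w x)⁻¹) ≠ ⊤ ∧
      ∃ f : ℝ → ℝ, MemLp f 2 volume ∧ MemLp f 2 (wm w) ∧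
        (∃ t : ℝ, 0 < t ∧
          C * (oneSup w + oneSup (fun x => (w x)⁻¹)) * eLpNorm f 2 (wm w) <
            ENNReal.ofReal t * (wm w {x | t < |T f x|}) ^ (1 / 2 : ℝ)) ∧
        C * (oneSup w + oneSup (fun x => (w x)⁻¹)) * eLpNorm f 2 (wm w) <
          eLpNorm (T f) 2 (wm w) := by
  obtain ⟨e, n, e0, e1, hmain⟩ := core
  refine ⟨TT e n, KK e n, ⟨KK_meas n e0 e1, ⟨2, ?_⟩, ⟨40, ?_⟩, ?_, ⟨4, ?_⟩⟩, ?_⟩
  · intro x y hxy
    have h0 : 0 < |x - y| := abs_pos.2 (sub_ne_zero.2 hxy)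
    rw [abs_of_nonneg (KK_nonneg n e0 e1 x y), le_div_iff₀ h0]
    exact KK_size n e0 e1 x y
  · intro x x' y hxy hx
    have h0 : 0 < |x - y| := abs_pos.2 (sub_ne_zero.2 hxy)
    have h1 : |x - y| / 2 ≤ |x' - y| := by
      have : |x - y| ≤ |x - x'| + |x' - y| := abs_sub_le _ _ _
      linarith
    have k1 := KK_reg n e0 e1 (x := x) (x' := x') (y := y) (v := |x - y| / 2) (by positivity)
      (by linarith) h1
    have e2 : 5 * |x - x'| / (|x - y| / 2) ^ 2 = 20 * |x - x'| / |x - y| ^ 2 := by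
      field_simp; ring
    rw [e2] at k1
    rw [KK_symm n e0 e1 y x, KK_symm n e0 e1 y x']
    calc _ ≤ 20 * |x - x'| / |x - y| ^ 2 + 20 * |x - x'| / |x - y| ^ 2 := add_le_add k1 k1
      _ = 40 * |x - x'| / |x - y| ^ 2 := by ring
  · intro f hf x
    exact ⟨KK_integrable n e0 e1 hf x, rfl⟩
  · intro f hf
    exact TT_L2 n e0 e1 hf
  · intro C
    obtain ⟨w, f, K, F, N, wmeas, w0, wi, wii, wl, hPP, K0, F0, fm, f0, fN, ⟨c, fc⟩, hf, t, ht, hlt⟩ :=
      hmain C C.2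
    obtain ⟨s1, s2⟩ := oneSup_le w0 hPP
    have memvol : ∀ μ : Measure ℝ, μ (Icc c (c+1)) < ⊤ → MemLp f 2 μ := by
      intro μ hμ
      have h1 : MemLp ((Icc c (c+1)).indicator (fun _ => N)) 2 μ :=
        memLp_indicator_const 2 measurableSet_Icc N (Or.inr hμ.ne)
      refine h1.mono fm.aestronglyMeasurable (Filter.Eventually.of_forall fun x => ?_)
      have hN := (f0 x).trans (fN x)
      by_cases hx : x ∈ Icc c (c+1)
      · rw [indicator_of_mem hx, Real.norm_eq_abs, Real.norm_eq_abs, abs_of_nonneg (f0 x),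
          abs_of_nonneg hN]
        exact fN x
      · have : x < c ∨ c + 1 < x := by by_contra h; push Not at h; exact hx h
        rw [fc x this]; simp
    have hwm : wm w (Icc c (c+1)) < ⊤ := by
      unfold wm
      rw [withDensity_apply _ measurableSet_Icc, ← restrict_Ioc_eq_restrict_Icc,
        ← ofReal_integral_eq_lintegral_ofReal
          ((intervalIntegrable_iff_integrableOn_Ioc_of_le (by linarith)).1 (wi c (c+1)))
          (Filter.Eventually.of_forall fun x => (w0 x).le)]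
      exact ENNReal.ofReal_lt_top
    have hnorm : eLpNorm f 2 (wm w) ≤ ENNReal.ofReal (F ^ (1 / 2 : ℝ)) := by
      rw [eLpNorm_eq_lintegral_rpow_enorm_toReal (by norm_num) (by norm_num)]
      have h1 : ∫⁻ x, ‖f x‖ₑ ^ (2 : ℝ≥0∞).toReal ∂(wm w) ≤ ENNReal.ofReal F := by
        unfold wm
        rw [lintegral_withDensity_eq_lintegral_mul _ wmeas.ennreal_ofReal (by fun_prop)]
        refine le_trans (le_of_eq ?_) hf
        congr 1; ext x
        simp only [Pi.mul_apply]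
        rw [Real.enorm_eq_ofReal (f0 x), ENNReal.toReal_ofNat, ENNReal.rpow_ofNat,
          ← ENNReal.ofReal_pow (f0 x), ← ENNReal.ofReal_mul (w0 x).le, mul_comm]
      calc _ ≤ (ENNReal.ofReal F) ^ (1 / (2 : ℝ≥0∞).toReal) := by gcongr
        _ = _ := by
          rw [ENNReal.ofReal_rpow_of_pos F0]; simp
    have hA : C * (oneSup w + oneSup (fun x => (w x)⁻¹)) * eLpNorm f 2 (wm w)
        ≤ ENNReal.ofReal ((4 * (C:ℝ) ^ 2 * K * F) ^ (1 / 2 : ℝ)) := by
      calc C * (oneSup w + oneSup (fun x => (w x)⁻¹)) * eLpNorm f 2 (wm w)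
          ≤ C * (ENNReal.ofReal (K ^ (1 / 2 : ℝ)) + ENNReal.ofReal (K ^ (1 / 2 : ℝ)))
            * ENNReal.ofReal (F ^ (1 / 2 : ℝ)) := by gcongr
        _ = ENNReal.ofReal (C * (K ^ (1 / 2 : ℝ) + K ^ (1 / 2 : ℝ)) * F ^ (1 / 2 : ℝ)) := by
            rw [ENNReal.ofReal_mul (by positivity), ENNReal.ofReal_mul (by positivity),
              ENNReal.ofReal_add (by positivity) (by positivity), ENNReal.ofReal_coe_nnreal]
        _ = _ := by
            congr 1
            have c2 : (4 * (C:ℝ) ^ 2 * K * F) = (2 * (C:ℝ)) ^ 2 * K * F := by ring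
            have c3 : ((2 * (C:ℝ)) ^ 2) ^ (1 / 2 : ℝ) = 2 * C := by
              rw [← Real.sqrt_eq_rpow, Real.sqrt_sq (by positivity)]
            rw [c2, Real.mul_rpow (by positivity) F0.le, Real.mul_rpow (by positivity) K0.le, c3]
            ring
    have hB : ENNReal.ofReal ((4 * (C:ℝ) ^ 2 * K * F) ^ (1 / 2 : ℝ))
        < ENNReal.ofReal t * (wm w {x | t < |TT e n f x|}) ^ (1 / 2 : ℝ) := by
      have hset : {x | t < |TT e n f x|} = {x | t < TT e n f x} := by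
        ext x; simp only [mem_ofPred_eq]; rw [abs_of_nonneg (TT_nonneg n e0 e1 f0 x)]
      rw [hset]
      have D0 : 0 ≤ 4 * (C:ℝ) ^ 2 * K * F := by positivity
      have e3 : (4 * (C:ℝ) ^ 2 * K * F) ^ (1 / 2 : ℝ)
          = t * (4 * (C:ℝ) ^ 2 * K * F / t ^ 2) ^ (1 / 2 : ℝ) := by
        rw [Real.div_rpow D0 (by positivity), ← Real.sqrt_eq_rpow (t ^ 2), Real.sqrt_sq ht.le]
        field_simp
      rw [e3, ENNReal.ofReal_mul ht.le, ← ENNReal.ofReal_rpow_of_nonneg (by positivity) (by norm_num)]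
      have ht' : ENNReal.ofReal t ≠ 0 := by simpa using ht
      rw [ENNReal.mul_lt_mul_iff_right ht' ENNReal.ofReal_ne_top]
      exact ENNReal.rpow_lt_rpow hlt (by norm_num)
    have hcheb : ENNReal.ofReal t * (wm w {x | t < |TT e n f x|}) ^ (1 / 2 : ℝ)
        ≤ eLpNorm (TT e n f) 2 (wm w) := by
      have hmeas := TT_meas n e0 e1 fm
      have h1 := mul_meas_ge_le_pow_eLpNorm' (wm w) (p := 2) (by norm_num) (by norm_num)
        hmeas.aestronglyMeasurable (ENNReal.ofReal t)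
      have h2 : wm w {x | t < |TT e n f x|} ≤ wm w {x | ENNReal.ofReal t ≤ ‖TT e n f x‖ₑ} := by
        apply measure_mono
        intro x hx
        simp only [mem_ofPred_eq] at hx ⊢
        rw [← ofReal_norm]
        exact ENNReal.ofReal_le_ofReal hx.le
      have h3 : (ENNReal.ofReal t * (wm w {x | t < |TT e n f x|}) ^ (1 / 2 : ℝ)) ^ (2:ℝ)
          ≤ eLpNorm (TT e n f) 2 (wm w) ^ (2:ℝ) := by
        rw [ENNReal.mul_rpow_of_nonneg _ _ (by norm_num), ← ENNReal.rpow_mul]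
        norm_num at h1 ⊢
        refine le_trans ?_ h1
        gcongr
      exact (ENNReal.rpow_le_rpow_iff (by norm_num)).1 h3
    refine ⟨w, ⟨wmeas, w0, wi, wii, wl, 1 + K ^ 2, fun a b hab => (bounds hab w0 (hPP a b hab)).2.2.2.2.2.2⟩,
      (s1.trans_lt ENNReal.ofReal_lt_top).ne, (s2.trans_lt ENNReal.ofReal_lt_top).ne, f,
      memvol _ (by simp), memvol _ hwm, ⟨t, ht, hA.trans_lt hB⟩, (hA.trans_lt hB).trans_le hcheb⟩

end Pool.Agent.Results.MP_4229e6_an.EndpointFails
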