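import Pool.Agent.H433R3.Ml12

/-!
# One-supremum mixed weak type bounds for Calderon-Zygmund operators, `0 < α < 1`

The definitions (`IsCZO`, `MemAp`, `oneSup`, `wm`, ...) are in `Pool.Agent.H433R3.Ml12`.
-/

set_option autoImplicit false

namespace Pool.Agent.Results.MP_4229e6_an.WeakBound

open MeasureTheory Pool.Agent.H433R3.MixedSup
open scoped ENNReal NNReal

/-- **The one-supremum weak type bound for `0 < α < 1`.** For every Calderon-Zygmund operator `T` on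
`ℝ^d`, `‖T‖_{L^p(w) → L^{p,∞}(w)} ≤ C [w]_{(A_p)^θ (A_∞^exp)^{1-θ}}` with `θ = 1 / (p - α)`. -/
theorem result {d : ℕ} (hd : 0 < d) {𝕜 : Type*} [RCLike 𝕜] {p α : ℝ} (hp : 1 < p) (hα : 0 < α)
    (hα1 : α < 1) (T : ((Fin d → ℝ) → 𝕜) → ((Fin d → ℝ) → 𝕜))
    (K : (Fin d → ℝ) → (Fin d → ℝ) → 𝕜) (hT : IsCZO T K) :
    ∃ C : ℝ≥0, ∀ w : (Fin d → ℝ) → ℝ, MemAp p w →
      ∀ f : (Fin d → ℝ) → 𝕜, MemLp f 2 volume → MemLp f (ENNReal.ofReal p) (wm w) →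
        ∀ lam : ℝ≥0, (lam : ℝ≥0∞) * wm w {x | (lam : ℝ≥0∞) < ‖T f x‖ₑ} ^ (1 / p) ≤
          C * oneSup p (1 / (p - α)) (1 - 1 / (p - α)) w *
            eLpNorm f (ENNReal.ofReal p) (wm w) := by
  obtain ⟨C, hC⟩ := both hd hp hα hα1 T K hT
  exact ⟨C, fun w hw f hf2 hfp => (hC w hw f hf2 hfp).1⟩

end Pool.Agent.Results.MP_4229e6_an.WeakBound
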